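import Mathlib
import Pool.Agent.H.MP_0d0d23_co.Base

set_option autoImplicit false

namespace Pool.Agent.Results.MP_0d0d23_co.All

open Pool.Agent.H.MP_0d0d23_co

theorem result (r m : ℕ) (hr : 2 ≤ r) (hm : 2 ≤ m) :
    ∃ (N : Type) (_ : Fintype N) (_ : DecidableEq N) (W : Finset N → Prop),
      (∀ S T, S ⊆ T → W S → W T) ∧ ¬ W ∅ ∧ W Finset.univ ∧ (∀ i j, Des W i j ∨ Des W j i) ∧
      (typ W '' {S | ShiftMin W S}).ncard = r ∧ InvRobust W m ∧ ¬ InvRobust W (m + 1) := by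
  obtain ⟨r, rfl⟩ : ∃ k, r = k + 2 := ⟨r - 2, by omega⟩
  obtain ⟨n, rfl⟩ : ∃ k, m = k + 1 := ⟨m - 1, by omega⟩
  obtain ⟨N, i1, i2, W, g, -⟩ := all (n := n) (by omega) r
  exact ⟨N, i1, i2, W, g.mono, g.emp, g.full, g.comp, g.num, g.rob, g.nrob⟩

end Pool.Agent.Results.MP_0d0d23_co.All
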